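import Pool.Agent.W963.GE.Count

/-!
# The number of digit sums of an algebraic integer in terms of its Mahler measure
-/

set_option autoImplicit false

namespace Pool.Agent.W963.GE

open Polynomial

/-- The Mahler measure of (the minimal polynomial of) an algebraic integer. -/
noncomputable def MM (x : ℂ) : ℝ := ((minpoly ℤ x).map (Int.castRingHom ℂ)).mahlerMeasure

lemma minpoly_ne (x : ℂ) (hx : IsIntegral ℤ x) :
    (minpoly ℤ x).map (Int.castRingHom ℂ) ≠ 0 :=
  ((minpoly.monic hx).map _).ne_zero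

lemma roots_nodup (x : ℂ) (hx : IsIntegral ℤ x) :
    ((minpoly ℤ x).map (Int.castRingHom ℂ)).roots.Nodup := by
  have hxQ : IsIntegral ℚ x := hx.tower_top
  have h1 : (minpoly ℤ x).map (Int.castRingHom ℂ) = (minpoly ℚ x).map (algebraMap ℚ ℂ) := by
    rw [minpoly.isIntegrallyClosed_eq_field_fractions' ℚ hx, Polynomial.map_map]
    congr 1
  rw [h1]
  exact nodup_roots ((minpoly.irreducible hxQ).separable.map)

/-- the conjugates outside the unit disc -/
noncomputable def outer (x : ℂ) : Finset ℂ := by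
  classical
  exact ((minpoly ℤ x).map (Int.castRingHom ℂ)).roots.toFinset.filter fun a => 1 < ‖a‖

lemma mem_outer (x : ℂ) (hx : IsIntegral ℤ x) (a : ℂ) :
    a ∈ outer x ↔ (aeval a (minpoly ℤ x) = 0 ∧ 1 < ‖a‖) := by
  classical
  unfold outer
  rw [Finset.mem_filter, Multiset.mem_toFinset, mem_roots (minpoly_ne x hx), IsRoot.def, eval_map,
    aeval_def]
  rfl

lemma MM_eq (x : ℂ) (hx : IsIntegral ℤ x) : MM x = ∏ a ∈ outer x, ‖a‖ := by
  classical
  unfold MM
  rw [mahlerMeasure_eq_leadingCoeff_mul_prod_roots, ((minpoly.monic hx).map _).leadingCoeff,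
    norm_one, one_mul]
  have h1 : ((minpoly ℤ x).map (Int.castRingHom ℂ)).roots.toFinset.val =
      ((minpoly ℤ x).map (Int.castRingHom ℂ)).roots := by
    rw [Multiset.toFinset_val, Multiset.dedup_eq_self]
    exact roots_nodup x hx
  rw [← h1]
  change ∏ a ∈ ((minpoly ℤ x).map (Int.castRingHom ℂ)).roots.toFinset, max 1 ‖a‖ = _
  unfold outer
  rw [Finset.prod_filter]
  refine Finset.prod_congr rfl fun a _ => ?_
  split_ifs with h
  · exact max_eq_right h.le
  · exact max_eq_left (not_lt.1 h)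

lemma MM_ge (x : ℂ) (hx : IsIntegral ℤ x) : 1 ≤ MM x :=
  one_le_mahlerMeasure_of_ne_zero (minpoly.monic hx).ne_zero

lemma MM_gt (x : ℂ) (hx : IsIntegral ℤ x) (h0 : x ≠ 0) (hroot : ∀ m > 0, x ^ m ≠ 1) :
    1 < MM x := by
  rcases (MM_ge x hx).lt_or_eq with h | h
  · exact h
  · exfalso
    obtain ⟨n, hn, h2⟩ := pow_eq_one_of_mahlerMeasure_eq_one (p := minpoly ℤ x) h.symm h0
      (mem_aroots.2 ⟨(minpoly.monic hx).ne_zero, minpoly.aeval ℤ x⟩)
    exact hroot n hn h2

/-- the set of digit sums -/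
def digitSums (x : ℂ) (n : ℕ) : Set ℂ :=
  {z | ∃ ε : Fin n → Bool, z = ∑ i : Fin n, if ε i then x ^ (i : ℕ) else 0}

lemma card_digitSums (x : ℂ) (n : ℕ) [DecidableEq ℂ] :
    Nat.card ↥(digitSums x n) = (Finset.univ.image (dval x (n := n))).card := by
  have h1 : digitSums x n = ((Finset.univ.image (dval x (n := n)) : Finset ℂ) : Set ℂ) := by
    ext z
    simp only [digitSums, Set.mem_ofPred_eq, Finset.coe_image, Finset.coe_univ, Set.image_univ,
      Set.mem_range, dval]
    constructor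
    · rintro ⟨ε, rfl⟩; exact ⟨ε, rfl⟩
    · rintro ⟨ε, rfl⟩; exact ⟨ε, rfl⟩
  rw [h1, Nat.card_coe_set_eq, Set.ncard_coe_finset]

/-- the constant `2 / (1 + exp (-(1 - 1 / M²)))` -/
noncomputable def base (M : ℝ) : ℝ := 2 / (1 + Real.exp (-(1 - 1 / M ^ 2)))

theorem digit_lower (x : ℂ) (hx : IsIntegral ℤ x) (n : ℕ) :
    base (MM x) ^ n ≤ (Nat.card ↥(digitSums x n) : ℝ) := by
  classical
  rw [card_digitSums]
  have h := count (fun j : ↥(outer x) => (j : ℂ)) Subtype.val_injective
    (fun j => ((mem_outer x hx j).1 j.2).2) x (by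
      intro n c hc j
      have h1 : aeval x (∑ i : Fin n, C (c i) * X ^ (i : ℕ) : ℤ[X]) = 0 := by
        rw [map_sum, ← hc]
        refine Finset.sum_congr rfl fun i _ => ?_
        simp
      have h2 : minpoly ℤ x ∣ (∑ i : Fin n, C (c i) * X ^ (i : ℕ) : ℤ[X]) :=
        minpoly.isIntegrallyClosed_dvd hx h1
      obtain ⟨q, hq⟩ := h2
      have h3 : aeval (j : ℂ) (∑ i : Fin n, C (c i) * X ^ (i : ℕ) : ℤ[X]) = 0 := by
        rw [hq, map_mul, ((mem_outer x hx j).1 j.2).1, zero_mul]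
      rw [map_sum] at h3
      rw [← h3]
      refine Finset.sum_congr rfl fun i _ => ?_
      simp) n
  have hM : M2 (fun j : ↥(outer x) => (j : ℂ)) = MM x ^ 2 := by
    unfold M2
    rw [Finset.prod_pow, MM_eq x hx]
    congr 1
    exact Finset.prod_coe_sort (outer x) (fun a => ‖a‖)
  unfold al at h
  rw [hM] at h
  exact h

end Pool.Agent.W963.GE
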