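import Pool.Agent.W963.GE.Form

/-!
# The number of digit sums: lower bound by Gaussian weights
-/

set_option autoImplicit false
set_option linter.unusedSectionVars false

namespace Pool.Agent.W963.GE

open Matrix Finset
open scoped ComplexConjugate

/-- difference of two binary digits -/
def dd (a : Bool × Bool) : ℝ := (if a.1 then 1 else 0) - (if a.2 then 1 else 0)

lemma cosh_ineq (α u : ℝ) (h0 : 0 ≤ α) (h1 : α ≤ 1) :
    1 + α * Real.cosh u ≤ (1 + α) * Real.exp (u ^ 2 / 4) := by
  have e1 : Real.cosh u = 2 * Real.cosh (u / 2) ^ 2 - 1 := by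
    have := Real.cosh_sq (u / 2)
    have h2 := Real.cosh_two_mul (u / 2)
    rw [show 2 * (u / 2) = u by ring] at h2
    rw [h2]; linarith
  have h3 : Real.cosh (u / 2) ^ 2 ≤ Real.exp (u ^ 2 / 4) := by
    have h4 := Real.cosh_le_exp_half_sq (u / 2)
    have h5 : 0 ≤ Real.cosh (u / 2) := (Real.cosh_pos _).le
    calc Real.cosh (u / 2) ^ 2 ≤ Real.exp ((u / 2) ^ 2 / 2) ^ 2 := by gcongr
      _ = Real.exp (u ^ 2 / 4) := by
        rw [← Real.exp_nat_mul]
        congr 1
        push_cast
        ring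
  have h6 : 1 ≤ Real.exp (u ^ 2 / 4) := Real.one_le_exp (by positivity)
  rw [e1]
  nlinarith [mul_le_mul_of_nonneg_left h3 h0, mul_le_mul_of_nonneg_left h6 (sub_nonneg.2 h1)]

variable {ι : Type*} [Fintype ι] [DecidableEq ι]

/-- the vector of the values of a difference of digit sums -/
noncomputable def SS (x : ι → ℂ) {n : ℕ} (f : Fin n → Bool × Bool) : ι → ℂ :=
  fun j => ∑ i, (dd (f i) : ℂ) * x j ^ (i : ℕ)

lemma SS_cons (x : ι → ℂ) {n : ℕ} (a : Bool × Bool) (g : Fin n → Bool × Bool) :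
    SS x (Fin.cons a g : Fin (n + 1) → Bool × Bool) =
      (fun j => x j * SS x g j) + fun _ => ((dd a : ℝ) : ℂ) := by
  funext j
  simp only [SS, Pi.add_apply]
  rw [Fin.sum_univ_succ]
  simp only [Fin.cons_zero, Fin.val_zero, pow_zero, mul_one, Fin.cons_succ, Fin.val_succ]
  rw [add_comm, Finset.mul_sum]
  congr 1
  refine Finset.sum_congr rfl fun i _ => ?_
  ring

/-- the constant `exp (-(1 - 1 / M²))` -/
noncomputable def al (x : ι → ℂ) : ℝ := Real.exp (-(1 - 1 / M2 x))

lemma M2_pos (x : ι → ℂ) (hx : ∀ i, 1 < ‖x i‖) : 0 < M2 x :=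
  Finset.prod_pos fun i _ => by
    have := hx i
    positivity

lemma M2_ge (x : ι → ℂ) (hx : ∀ i, 1 < ‖x i‖) : 1 ≤ M2 x := by
  unfold M2
  have h := Finset.prod_le_prod (s := (Finset.univ : Finset ι)) (f := fun _ => (1 : ℝ))
    (g := fun i => ‖x i‖ ^ 2) (fun _ _ => zero_le_one) (fun i _ => by
      have := hx i
      nlinarith)
  simpa using h

lemma al_le (x : ι → ℂ) (hx : ∀ i, 1 < ‖x i‖) : al x ≤ 1 := by
  unfold al
  rw [Real.exp_le_one_iff]
  have h1 := M2_pos x hx
  have h2 := M2_ge x hx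
  have h3 : 1 / M2 x ≤ 1 := by rw [div_le_one h1]; exact h2
  linarith

lemma step (x : ι → ℂ) (hinj : Function.Injective x) (hx : ∀ i, 1 < ‖x i‖) {n : ℕ}
    (g : Fin n → Bool × Bool) :
    ∑ a : Bool × Bool, Real.exp (-(NN x (SS x (Fin.cons a g : Fin (n + 1) → Bool × Bool)) / M2 x)) ≤
      2 * (1 + al x) * Real.exp (-(NN x (SS x g) / M2 x)) := by
  have hM := M2_pos x hx
  set z : ι → ℂ := fun j => x j * SS x g j with hz
  set b : ℝ := (be x z).re with hb
  have hN := NN_step x hinj hx (SS x g)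
  rw [← hz] at hN
  have hterm : ∀ a : Bool × Bool, NN x (SS x (Fin.cons a g : Fin (n + 1) → Bool × Bool)) =
      NN x z + 2 * dd a * b + dd a ^ 2 * (M2 x - 1) := by
    intro a
    rw [SS_cons, ← hz, NN_add, NN_one x hinj hx]
  simp_rw [hterm]
  rw [Fintype.sum_prod_type]
  simp only [Fintype.sum_bool, dd]
  simp only [if_true, Bool.false_eq_true, if_false]
  set E := Real.exp (-(NN x z / M2 x)) with hE
  set u : ℝ := 2 * b / M2 x with hu
  have t1 : Real.exp (-((NN x z + 2 * (1 - 1) * b + (1 - 1) ^ 2 * (M2 x - 1)) / M2 x)) = E := by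
    rw [hE]; congr 2; ring
  have t2 : Real.exp (-((NN x z + 2 * (1 - 0) * b + (1 - 0) ^ 2 * (M2 x - 1)) / M2 x)) =
      E * al x * Real.exp (-u) := by
    rw [hE, al, ← Real.exp_add, ← Real.exp_add]
    congr 1
    rw [hu]; field_simp; ring
  have t3 : Real.exp (-((NN x z + 2 * (0 - 1) * b + (0 - 1) ^ 2 * (M2 x - 1)) / M2 x)) =
      E * al x * Real.exp u := by
    rw [hE, al, ← Real.exp_add, ← Real.exp_add]
    congr 1
    rw [hu]; field_simp; ring
  have t4 : Real.exp (-((NN x z + 2 * (0 - 0) * b + (0 - 0) ^ 2 * (M2 x - 1)) / M2 x)) = E := by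
    rw [hE]; congr 2; ring
  rw [t1, t2, t3, t4]
  have hal0 : 0 ≤ al x := (Real.exp_pos _).le
  have hc := cosh_ineq (al x) u hal0 (al_le x hx)
  have hE0 : 0 < E := Real.exp_pos _
  have hcosh : Real.exp (-u) + Real.exp u = 2 * Real.cosh u := by
    rw [Real.cosh_eq]; ring
  have e1 : E + E * al x * Real.exp (-u) + (E * al x * Real.exp u + E) =
      2 * E * (1 + al x * Real.cosh u) := by
    have : E + E * al x * Real.exp (-u) + (E * al x * Real.exp u + E) =
      2 * E + E * al x * (Real.exp (-u) + Real.exp u) := by ring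
    rw [this, hcosh]; ring
  rw [e1]
  have h5 : 2 * E * (1 + al x * Real.cosh u) ≤ 2 * E * ((1 + al x) * Real.exp (u ^ 2 / 4)) :=
    mul_le_mul_of_nonneg_left hc (by positivity)
  refine h5.trans ?_
  have h6 : E * Real.exp (u ^ 2 / 4) ≤ Real.exp (-(NN x (SS x g) / M2 x)) := by
    rw [hE, ← Real.exp_add]
    apply Real.exp_le_exp.2
    rw [hN]
    have h7 : b ^ 2 ≤ ‖be x z‖ ^ 2 := by
      have h8 : |b| ≤ ‖be x z‖ := Complex.abs_re_le_norm _
      have h9 := abs_nonneg b
      rw [← sq_abs b]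
      gcongr
    have h10 : u ^ 2 / 4 = b ^ 2 / M2 x / M2 x := by rw [hu]; field_simp; ring
    rw [h10, add_div]
    have h11 : b ^ 2 / M2 x / M2 x ≤ ‖be x z‖ ^ 2 / M2 x / M2 x := by gcongr
    linarith
  calc 2 * E * ((1 + al x) * Real.exp (u ^ 2 / 4)) = 2 * (1 + al x) * (E * Real.exp (u ^ 2 / 4)) := by
        ring
    _ ≤ _ := mul_le_mul_of_nonneg_left h6 (by positivity)

lemma total (x : ι → ℂ) (hinj : Function.Injective x) (hx : ∀ i, 1 < ‖x i‖) :
    ∀ n : ℕ, ∑ f : Fin n → Bool × Bool, Real.exp (-(NN x (SS x f) / M2 x)) ≤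
      (2 * (1 + al x)) ^ n := by
  intro n
  induction n with
  | zero =>
    have : ∀ f : Fin 0 → Bool × Bool, NN x (SS x f) = 0 := by
      intro f
      have h0 : SS x f = 0 := by
        funext j
        simp [SS]
      rw [h0]
      simp [NN]
    simp [this]
  | succ n ih =>
    rw [← (Fin.consEquiv fun _ : Fin (n + 1) => Bool × Bool).sum_comp, Fintype.sum_prod_type_right]
    have h1 : ∀ g : Fin n → Bool × Bool,
        ∑ a : Bool × Bool, Real.exp (-(NN x (SS x ((Fin.consEquiv fun _ : Fin (n + 1) =>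
          Bool × Bool) (a, g))) / M2 x)) ≤
        2 * (1 + al x) * Real.exp (-(NN x (SS x g) / M2 x)) := fun g => step x hinj hx g
    refine (Finset.sum_le_sum fun g _ => h1 g).trans ?_
    rw [← Finset.mul_sum, pow_succ, mul_comm]
    have h2 : 0 ≤ 2 * (1 + al x) := by
      have : 0 ≤ al x := (Real.exp_pos _).le
      positivity
    exact mul_le_mul_of_nonneg_right ih h2

lemma cs {A B : Type*} [Fintype A] [DecidableEq A] [DecidableEq B] (g : A → B) :
    (Fintype.card A) ^ 2 ≤ (univ.image g).card *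
      (univ.filter fun p : A × A => g p.1 = g p.2).card := by
  have h1 : Fintype.card A = ∑ z ∈ univ.image g, (univ.filter fun a => g a = z).card := by
    rw [← Finset.card_univ]
    exact Finset.card_eq_sum_card_image g univ
  have h2 : (univ.filter fun p : A × A => g p.1 = g p.2).card =
      ∑ z ∈ univ.image g, ((univ.filter fun a => g a = z).card) ^ 2 := by
    have h3 : (univ.filter fun p : A × A => g p.1 = g p.2).card =
        ∑ a : A, (univ.filter fun b => g b = g a).card := by
      rw [Finset.card_filter, Fintype.sum_prod_type]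
      refine Finset.sum_congr rfl fun a _ => ?_
      rw [Finset.card_filter]
      refine Finset.sum_congr rfl fun b _ => ?_
      simp only [eq_comm]
    rw [h3, ← Finset.sum_fiberwise_of_maps_to (s := univ) (t := univ.image g) (g := g)
      (fun a _ => Finset.mem_image_of_mem g (Finset.mem_univ a))]
    refine Finset.sum_congr rfl fun z _ => ?_
    rw [sq, ← smul_eq_mul, ← Finset.sum_const]
    refine Finset.sum_congr rfl fun a ha => ?_
    rw [(Finset.mem_filter.1 ha).2]
  rw [h2]
  nth_rewrite 1 [h1]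
  exact sq_sum_le_card_mul_sum_sq

/-- the value of a digit sum -/
noncomputable def dval (x : ℂ) {n : ℕ} (ε : Fin n → Bool) : ℂ :=
  ∑ i : Fin n, if ε i then x ^ (i : ℕ) else 0

theorem count (x : ι → ℂ) (hinj : Function.Injective x) (hx : ∀ i, 1 < ‖x i‖) (x0 : ℂ)
    (h : ∀ (n : ℕ) (c : Fin n → ℤ), ∑ i, (c i : ℂ) * x0 ^ (i : ℕ) = 0 →
      ∀ j, ∑ i, (c i : ℂ) * x j ^ (i : ℕ) = 0) (n : ℕ) :
    (2 / (1 + al x)) ^ n ≤ ((univ.image (dval x0 (n := n))).card : ℝ) := by
  classical
  have hcs := cs (dval x0 (n := n))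
  set N := (univ.image (dval x0 (n := n))).card with hN
  set Cn := (univ.filter fun p : (Fin n → Bool) × (Fin n → Bool) =>
    dval x0 p.1 = dval x0 p.2).card with hC
  have hcard : Fintype.card (Fin n → Bool) = 2 ^ n := by simp
  rw [hcard] at hcs
  have hal : 0 < al x := Real.exp_pos _
  have hCle : (Cn : ℝ) ≤ (2 * (1 + al x)) ^ n := by
    refine le_trans ?_ (total x hinj hx n)
    rw [hC, Finset.card_filter]
    push_cast
    rw [← (Equiv.arrowProdEquivProdArrow (Fin n) (fun _ => Bool) (fun _ => Bool)).sum_comp]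
    refine Finset.sum_le_sum fun f _ => ?_
    split_ifs with hf
    · have h0 : SS x f = 0 := by
        funext j
        have h1 := h n (fun i => (if (f i).1 then 1 else 0) - (if (f i).2 then 1 else 0)) (by
          have h2 : dval x0 (fun i => (f i).1) = dval x0 (fun i => (f i).2) := hf
          unfold dval at h2
          rw [← sub_eq_zero, ← Finset.sum_sub_distrib] at h2
          rw [← h2]
          refine Finset.sum_congr rfl fun i _ => ?_
          push_cast
          split_ifs <;> ring) j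
        simp only [SS, Pi.zero_apply]
        rw [← h1]
        refine Finset.sum_congr rfl fun i _ => ?_
        unfold dd
        push_cast
        split_ifs <;> simp
      rw [h0]
      simp [NN]
    · exact (Real.exp_pos _).le
  have h3 : ((2 : ℝ) ^ n) ^ 2 ≤ N * (2 * (1 + al x)) ^ n := by
    have h4 : (((2 : ℝ) ^ n) ^ 2) ≤ (N : ℝ) * Cn := by exact_mod_cast hcs
    exact h4.trans (mul_le_mul_of_nonneg_left hCle (Nat.cast_nonneg _))
  rw [div_pow, div_le_iff₀ (by positivity)]
  have h5 : (2 : ℝ) ^ n * 2 ^ n ≤ 2 ^ n * (N * (1 + al x) ^ n) := by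
    rw [mul_pow] at h3
    calc (2 : ℝ) ^ n * 2 ^ n = (2 ^ n) ^ 2 := by ring
      _ ≤ _ := h3
      _ = _ := by ring
  exact le_of_mul_le_mul_left h5 (by positivity)

end Pool.Agent.W963.GE
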