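import Pool.Agent.H746UG.MetFinal

/-!
# Positive words generating a subgroup of finite index
-/

set_option autoImplicit false

namespace Pool.Agent.W963.GE

open Filter Topology
open scoped Pointwise

variable {G : Type*} [Group G]

lemma pow_mono (S : Set G) {i j : ℕ} (h : i ≤ j) : (insert 1 S) ^ i ⊆ (insert 1 S) ^ j :=
  Set.pow_subset_pow_right (Set.mem_insert _ _) h

/-- the cosets reached by positive words -/
def AA (S : Set G) (H : Subgroup G) (q0 : G ⧸ H) (j : ℕ) : Set (G ⧸ H) :=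
  {q | ∃ w ∈ (insert 1 S) ^ j, q = w⁻¹ • q0}

lemma AA_grow (S : Set G) (hS : Subgroup.closure S = ⊤) (H : Subgroup G) (hH : H.index ≠ 0)
    (q0 : G ⧸ H) : ∀ j, j + 1 ≤ (AA S H q0 j).ncard ∨ AA S H q0 j = Set.univ := by
  have hfi : H.FiniteIndex := ⟨hH⟩
  have hfq : Finite (G ⧸ H) := Subgroup.finite_quotient_of_finiteIndex
  intro j
  induction j with
  | zero =>
    left
    have : (AA S H q0 0).Nonempty := ⟨q0, 1, by simp, by simp⟩
    have := (Set.ncard_pos (Set.toFinite _)).2 this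
    omega
  | succ j ih =>
    rcases ih with h | h
    · have hsub : AA S H q0 j ⊆ AA S H q0 (j + 1) := by
        rintro q ⟨w, hw, rfl⟩
        exact ⟨w, pow_mono S (Nat.le_succ j) hw, rfl⟩
      rcases hsub.eq_or_ssubset with heq | hss
      · right
        have hst : Subgroup.closure S ≤ MulAction.stabilizer G (AA S H q0 j) := by
          rw [Subgroup.closure_le]
          intro s hs
          have h1 : s⁻¹ ∈ MulAction.stabilizer G (AA S H q0 j) := by
            rw [MulAction.mem_stabilizer_iff]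
            apply Set.eq_of_subset_of_ncard_le
            · rintro _ ⟨q, ⟨w, hw, rfl⟩, rfl⟩
              rw [heq]
              refine ⟨w * s, ?_, ?_⟩
              · rw [pow_succ]
                exact Set.mul_mem_mul hw (Set.mem_insert_of_mem _ hs)
              · simp [mul_smul]
            · rw [Set.ncard_smul_set]
            · exact Set.toFinite _
          have h2 := (MulAction.stabilizer G (AA S H q0 j)).inv_mem h1
          rwa [inv_inv] at h2
        rw [hS] at hst
        rw [← heq, Set.eq_univ_iff_forall]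
        intro q
        obtain ⟨g, rfl⟩ := MulAction.exists_smul_eq G q0 q
        have h3 : g • AA S H q0 j = AA S H q0 j := hst (Subgroup.mem_top g)
        rw [← h3]
        exact Set.smul_mem_smul_set ⟨1, by
          rw [Set.mem_pow]
          exact ⟨fun _ => ⟨1, Set.mem_insert _ _⟩, by simp⟩, by simp⟩
      · left
        have := Set.ncard_lt_ncard hss (Set.toFinite _)
        omega
    · right
      rw [Set.eq_univ_iff_forall] at h ⊢
      intro q
      obtain ⟨w, hw, rfl⟩ := h q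
      exact ⟨w, pow_mono S (Nat.le_succ j) hw, rfl⟩

lemma trans (S : Set G) (hS : Subgroup.closure S = ⊤) (H : Subgroup G) (hH : H.index ≠ 0) {d : ℕ}
    (hd : H.index ≤ d) (g g' : G) : ∃ w ∈ (insert 1 S) ^ (d - 1), g * w * g'⁻¹ ∈ H := by
  have hfi : H.FiniteIndex := ⟨hH⟩
  have hfq : Finite (G ⧸ H) := Subgroup.finite_quotient_of_finiteIndex
  have huniv : AA S H (g⁻¹ : G) (d - 1) = Set.univ := by
    rcases AA_grow S hS H hH (g⁻¹ : G) (d - 1) with h | h
    · rw [← Set.compl_empty_iff, ← Set.ncard_eq_zero (Set.toFinite _)]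
      have h1 := Set.ncard_add_ncard_compl (AA S H (g⁻¹ : G) (d - 1))
      have h2 : Nat.card (G ⧸ H) = H.index := rfl
      omega
    · exact h
  have h1 : ((g'⁻¹ : G) : G ⧸ H) ∈ AA S H (g⁻¹ : G) (d - 1) := by
    rw [huniv]; exact Set.mem_univ _
  obtain ⟨w, hw, hq⟩ := h1
  refine ⟨w, hw, ?_⟩
  have h2 : ((g'⁻¹ : G) : G ⧸ H) = ((w⁻¹ * g⁻¹ : G) : G ⧸ H) := hq
  rw [QuotientGroup.eq] at h2
  have h3 := H.inv_mem h2
  have e : ((g'⁻¹)⁻¹ * (w⁻¹ * g⁻¹))⁻¹ = g * w * g'⁻¹ := by group
  rwa [e] at h3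

/-- the elements of `H` that are products of at most `2 d - 1` elements of `S` -/
def TT (S : Set G) (H : Subgroup G) (d : ℕ) : Set H :=
  {t | (t : G) ∈ (insert 1 S) ^ (2 * d - 1)}

lemma TT_finite (S : Set G) (hfin : S.Finite) (H : Subgroup G) (d : ℕ) : (TT S H d).Finite :=
  Set.Finite.preimage Subtype.val_injective.injOn (H746UG.finite_pow _ (hfin.insert 1) (2 * d - 1))

lemma TT_gen (S : Set G) (hS : Subgroup.closure S = ⊤) (H : Subgroup G) (hH : H.index ≠ 0) {d : ℕ}
    (hd : H.index ≤ d) : Subgroup.closure (TT S H d) = ⊤ := by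
  have hd1 : 1 ≤ d := by omega
  set K := (Subgroup.closure (TT S H d)).map H.subtype with hK
  have hKH : K ≤ H := Subgroup.map_subtype_le _
  have hmem : ∀ t ∈ H, t ∈ (insert 1 S) ^ (2 * d - 1) → t ∈ K := by
    intro t ht h
    exact ⟨⟨t, ht⟩, Subgroup.subset_closure h, rfl⟩
  have h1 : ∀ g : G, ∃ k ∈ K, ∃ r ∈ (insert 1 S) ^ (d - 1), g = k * r := by
    intro g
    have hg : g ∈ Subgroup.closure S := by rw [hS]; exact Subgroup.mem_top g
    induction hg using Subgroup.closure_induction_right with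
    | one =>
      refine ⟨1, K.one_mem, 1, ?_, by simp⟩
      exact pow_mono S (Nat.zero_le _) (by simp)
    | mul_right g hg s hs ih =>
      obtain ⟨k, hk, r, hr, rfl⟩ := ih
      obtain ⟨r', hr', h2⟩ := trans S hS H hH hd 1 (r * s)
      rw [one_mul] at h2
      obtain ⟨u, hu, h3⟩ := trans S hS H hH hd r' 1
      rw [inv_one, mul_one] at h3
      have h4 : r * s * r'⁻¹ ∈ H := by
        have := H.inv_mem h2
        simpa [mul_assoc] using this
      have h5 : r * s * u ∈ H := by
        have := H.mul_mem h4 h3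
        simpa [mul_assoc] using this
      have h6 : r * s * r'⁻¹ = (r * s * u) * (r' * u)⁻¹ := by group
      refine ⟨k * (r * s * r'⁻¹), K.mul_mem hk ?_, r', hr', by group⟩
      rw [h6]
      refine K.mul_mem (hmem _ h5 ?_) (K.inv_mem (hmem _ h3 ?_))
      · have e : 2 * d - 1 = (d - 1) + 1 + (d - 1) := by omega
        rw [e, pow_add, pow_add, pow_one]
        exact Set.mul_mem_mul (Set.mul_mem_mul hr (Set.mem_insert_of_mem _ hs)) hu
      · have h7 : r' * u ∈ (insert 1 S) ^ ((d - 1) + (d - 1)) := by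
          rw [pow_add]; exact Set.mul_mem_mul hr' hu
        exact pow_mono S (by omega) h7
    | mul_inv_cancel g hg s hs ih =>
      obtain ⟨k, hk, r, hr, rfl⟩ := ih
      obtain ⟨r', hr', h2⟩ := trans S hS H hH hd 1 (r * s⁻¹)
      rw [one_mul] at h2
      obtain ⟨u, hu, h3⟩ := trans S hS H hH hd r 1
      rw [inv_one, mul_one] at h3
      have h4 : r' * s * r⁻¹ ∈ H := by simpa [mul_assoc] using h2
      have h5 : r' * s * u ∈ H := by
        have := H.mul_mem h4 h3
        simpa [mul_assoc] using this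
      have h6 : r * s⁻¹ * r'⁻¹ = (r * u) * (r' * s * u)⁻¹ := by group
      refine ⟨k * (r * s⁻¹ * r'⁻¹), K.mul_mem hk ?_, r', hr', by group⟩
      rw [h6]
      refine K.mul_mem (hmem _ h3 ?_) (K.inv_mem (hmem _ h5 ?_))
      · have h7 : r * u ∈ (insert 1 S) ^ ((d - 1) + (d - 1)) := by
          rw [pow_add]; exact Set.mul_mem_mul hr hu
        exact pow_mono S (by omega) h7
      · have e : 2 * d - 1 = (d - 1) + 1 + (d - 1) := by omega
        rw [e, pow_add, pow_add, pow_one]
        exact Set.mul_mem_mul (Set.mul_mem_mul hr' (Set.mem_insert_of_mem _ hs)) hu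
  rw [eq_top_iff]
  rintro ⟨h, hh⟩ _
  obtain ⟨k, hk, r, hr, hkr⟩ := h1 h
  have hrH : r ∈ H := by
    have : r = k⁻¹ * h := by rw [hkr]; group
    rw [this]
    exact H.mul_mem (H.inv_mem (hKH hk)) hh
  have hrK : r ∈ K := hmem r hrH (pow_mono S (by omega) hr)
  have : h ∈ K := by rw [hkr]; exact K.mul_mem hk hrK
  obtain ⟨y, hy, hyh⟩ := this
  have : y = ⟨h, hh⟩ := Subtype.ext hyh
  rw [← this]
  exact hy

lemma TT_pow (S : Set G) (H : Subgroup G) (d : ℕ) (n : ℕ) :
    ∀ t ∈ (TT S H d) ^ n, (t : G) ∈ (insert 1 S) ^ ((2 * d - 1) * n) := by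
  induction n with
  | zero =>
    intro t ht
    rw [pow_zero, Set.mem_one] at ht
    simp [ht]
  | succ n ih =>
    intro t ht
    rw [pow_succ] at ht
    obtain ⟨a, ha, b, hb, rfl⟩ := ht
    rw [mul_add, mul_one, pow_add]
    exact Set.mul_mem_mul (ih a ha) hb

lemma card_TT_pow (S : Set G) (hfin : S.Finite) (H : Subgroup G) (d : ℕ) (n : ℕ) :
    Nat.card ↥((TT S H d) ^ n) ≤ Nat.card ↥((insert 1 S) ^ ((2 * d - 1) * n)) := by
  have hf1 : Finite ↥((insert 1 S) ^ ((2 * d - 1) * n)) :=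
    (H746UG.finite_pow _ (hfin.insert 1) _).to_subtype
  refine Nat.card_le_card_of_injective (fun t => ⟨((t : H) : G), TT_pow S H d n t t.2⟩) ?_
  intro a b hab
  have h1 := congrArg Subtype.val hab
  exact Subtype.ext (Subtype.ext h1)

lemma card_pow_le (S : Set G) (hfin : S.Finite) (hne : S.Nonempty) {i j : ℕ} (h : i ≤ j) :
    Nat.card ↥(S ^ i) ≤ Nat.card ↥(S ^ j) := by
  obtain ⟨s, hs⟩ := hne
  have hf1 : Finite ↥(S ^ j) := (H746UG.finite_pow _ hfin _).to_subtype
  refine Nat.card_le_card_of_injective (fun t => ⟨(t : G) * s ^ (j - i), ?_⟩) ?_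
  · have e : (t : G) * s ^ (j - i) ∈ S ^ (i + (j - i)) := by
      rw [pow_add]
      exact Set.mul_mem_mul t.2 (Set.pow_mem_pow hs)
    rwa [Nat.add_sub_cancel' h] at e
  · intro a b hab
    have h1 := congrArg Subtype.val hab
    exact Subtype.ext (mul_right_cancel h1)

lemma insert_pow_subset (S : Set G) (n : ℕ) :
    (insert 1 S) ^ n ⊆ ⋃ i ∈ Finset.range (n + 1), S ^ i := by
  induction n with
  | zero => simp
  | succ n ih =>
    intro t ht
    rw [pow_succ] at ht
    obtain ⟨a, ha, b, hb, rfl⟩ := ht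
    have h1 := ih ha
    simp only [Set.mem_iUnion, Finset.mem_range] at h1 ⊢
    obtain ⟨i, hi, h2⟩ := h1
    rcases hb with rfl | hb
    · exact ⟨i, by omega, by simpa using h2⟩
    · refine ⟨i + 1, by omega, ?_⟩
      rw [pow_succ]
      exact Set.mul_mem_mul h2 hb

lemma card_insert_pow (S : Set G) (hfin : S.Finite) (hne : S.Nonempty) (n : ℕ) :
    Nat.card ↥((insert 1 S) ^ n) ≤ (n + 1) * Nat.card ↥(S ^ n) := by
  have h1 : ((insert 1 S) ^ n).ncard ≤ (⋃ i ∈ Finset.range (n + 1), S ^ i).ncard := by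
    refine Set.ncard_le_ncard (insert_pow_subset S n) ?_
    refine Set.Finite.biUnion (Finset.finite_toSet _) fun i _ => ?_
    exact H746UG.finite_pow _ hfin _
  have h2 : (⋃ i ∈ Finset.range (n + 1), S ^ i).ncard ≤
      ∑ i ∈ Finset.range (n + 1), (S ^ i).ncard := by
    exact Finset.set_ncard_biUnion_le _ _
  have h3 : ∑ i ∈ Finset.range (n + 1), (S ^ i).ncard ≤ (n + 1) * (S ^ n).ncard := by
    refine (Finset.sum_le_card_nsmul _ _ (S ^ n).ncard ?_).trans (by simp)
    intro i hi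
    have := card_pow_le S hfin hne (i := i) (j := n) (by have := Finset.mem_range.1 hi; omega)
    rwa [Nat.card_coe_set_eq, Nat.card_coe_set_eq] at this
  rw [Nat.card_coe_set_eq, Nat.card_coe_set_eq]
  exact h1.trans (h2.trans h3)

lemma rho_TT (S : Set G) (hfin : S.Finite) (hne : S.Nonempty) (H : Subgroup G) {d : ℕ}
    (hd : 1 ≤ d) : H746UG.rho (TT S H d) ≤ (2 * d - 1 : ℕ) * H746UG.rho S := by
  have h1 := H746UG.tendsto_rho (TT S H d)
  set e := 2 * d - 1 with he
  have he1 : 1 ≤ e := by omega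
  have h2 : Tendsto (fun n : ℕ => Real.log (Nat.card ↥(S ^ (e * n))) / (e * n : ℕ)) atTop
      (𝓝 (H746UG.rho S)) :=
    (H746UG.tendsto_rho S).comp (tendsto_id.const_mul_atTop' (show 0 < e by omega))
  have h3 : Tendsto (fun n : ℕ => Real.log ((e * n + 1 : ℕ) : ℝ) / n) atTop (𝓝 0) := by
    have h4 : Tendsto (fun n : ℕ => Real.log ((e * n + 1 : ℕ) : ℝ) / ((e * n + 1 : ℕ) : ℝ)) atTop
        (𝓝 0) := by
      have h5 : Tendsto (fun x : ℝ => Real.log x / x) atTop (𝓝 0) := by
        have := Real.isLittleO_log_id_atTop.tendsto_div_nhds_zero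
        simpa using this
      have h60 : ∀ n : ℕ, n ≤ e * n + 1 := fun n =>
        (Nat.le_mul_of_pos_left n (show 0 < e by omega)).trans (Nat.le_succ _)
      have h61 : Tendsto (fun n : ℕ => e * n + 1) atTop atTop := tendsto_atTop_mono h60 tendsto_id
      have h6 : Tendsto (fun n : ℕ => ((e * n + 1 : ℕ) : ℝ)) atTop atTop :=
        tendsto_natCast_atTop_atTop.comp h61
      exact h5.comp h6
    have h7 : Tendsto (fun n : ℕ => ((e * n + 1 : ℕ) : ℝ) / n) atTop (𝓝 e) := by
      have h8 : Tendsto (fun n : ℕ => (e : ℝ) + 1 / (n : ℝ)) atTop (𝓝 (e + 0)) :=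
        tendsto_const_nhds.add tendsto_one_div_atTop_nhds_zero_nat
      rw [add_zero] at h8
      refine h8.congr' ?_
      filter_upwards [eventually_gt_atTop 0] with n hn
      have : (n : ℝ) ≠ 0 := by exact_mod_cast hn.ne'
      push_cast
      field_simp
    have h9 := h4.mul h7
    rw [zero_mul] at h9
    refine h9.congr' ?_
    filter_upwards [eventually_gt_atTop 0] with n hn
    have h10 : (n : ℝ) ≠ 0 := by exact_mod_cast hn.ne'
    have h11 : ((e * n + 1 : ℕ) : ℝ) ≠ 0 := by positivity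
    field_simp
  have h4 := h3.add (h2.const_mul (e : ℝ))
  rw [zero_add] at h4
  refine le_of_tendsto_of_tendsto h1 h4 ?_
  filter_upwards [eventually_gt_atTop 0] with n hn
  have hn' : (0 : ℝ) < n := by exact_mod_cast hn
  have h5 : (Nat.card ↥((TT S H d) ^ n) : ℝ) ≤ ((e * n + 1 : ℕ) : ℝ) * Nat.card ↥(S ^ (e * n)) := by
    exact_mod_cast (card_TT_pow S hfin H d n).trans (card_insert_pow S hfin hne _)
  have hpos : (0 : ℝ) < Nat.card ↥(S ^ (e * n)) := by
    obtain ⟨s, hs⟩ := hne
    have hf1 : Finite ↥(S ^ (e * n)) := (H746UG.finite_pow _ hfin _).to_subtype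
    have hf2 : Nonempty ↥(S ^ (e * n)) := ⟨⟨s ^ (e * n), Set.pow_mem_pow hs⟩⟩
    exact_mod_cast Nat.card_pos
  have h6 : Real.log (Nat.card ↥((TT S H d) ^ n)) ≤
      Real.log ((e * n + 1 : ℕ) : ℝ) + Real.log (Nat.card ↥(S ^ (e * n))) := by
    rcases Nat.eq_zero_or_pos (Nat.card ↥((TT S H d) ^ n)) with h0 | h0
    · rw [h0]
      simp only [Nat.cast_zero, Real.log_zero]
      exact add_nonneg (Real.log_natCast_nonneg _) (Real.log_natCast_nonneg _)
    · rw [← Real.log_mul (by positivity) hpos.ne']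
      exact Real.log_le_log (by exact_mod_cast h0) h5
  have h7 : (e : ℝ) * (Real.log (Nat.card ↥(S ^ (e * n))) / (e * n : ℕ)) =
      Real.log (Nat.card ↥(S ^ (e * n))) / n := by
    have : (e : ℝ) ≠ 0 := by positivity
    push_cast
    field_simp
  rw [h7, ← add_div]
  exact div_le_div_of_nonneg_right h6 hn'.le

end Pool.Agent.W963.GE
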