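import Pool.Agent.W963.GE.Upper
import Pool.Agent.W963.GE.Index
import Pool.Agent.H785R3.GrowthR

/-!
# Lehmer's conjecture and the growth gap: assembly
-/

set_option autoImplicit false

namespace Pool.Agent.W963.GE

open Filter Topology Polynomial
open scoped Pointwise commutatorElement

universe u

lemma base_pos (M : ℝ) : 0 < base M := by
  unfold base
  have := Real.exp_pos (-(1 - 1 / M ^ 2))
  positivity

lemma base_lt_two (M : ℝ) : base M < 2 := by
  unfold base
  have := Real.exp_pos (-(1 - 1 / M ^ 2))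
  rw [div_lt_iff₀ (by positivity)]
  linarith

lemma base_mono {a b : ℝ} (ha : 1 ≤ a) (hab : a ≤ b) : base a ≤ base b := by
  unfold base
  have h1 := Real.exp_pos (-(1 - 1 / a ^ 2))
  have h2 := Real.exp_pos (-(1 - 1 / b ^ 2))
  have h3 : 1 / b ^ 2 ≤ 1 / a ^ 2 := by
    apply one_div_le_one_div_of_le (by positivity)
    gcongr
  have h4 : Real.exp (-(1 - 1 / b ^ 2)) ≤ Real.exp (-(1 - 1 / a ^ 2)) :=
    Real.exp_le_exp.2 (by linarith)
  apply div_le_div_of_nonneg_left (by norm_num) (by positivity)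
  linarith

lemma one_lt_base {M : ℝ} (hM : 1 < M) : 1 < base M := by
  unfold base
  have h1 := Real.exp_pos (-(1 - 1 / M ^ 2))
  rw [lt_div_iff₀ (by positivity)]
  have h2 : 1 / M ^ 2 < 1 := by
    rw [div_lt_one (by positivity)]
    nlinarith
  have h3 : Real.exp (-(1 - 1 / M ^ 2)) < 1 := by
    rw [Real.exp_lt_one_iff]; linarith
  linarith

/-- algebraic units that are not roots of unity -/
def UnitNotRoot (x : ℂ) : Prop :=
  x ≠ 0 ∧ IsIntegral ℤ x ∧ IsIntegral ℤ x⁻¹ ∧ ∀ m > 0, x ^ m ≠ 1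

lemma exists_unit : ∃ x : ℂ, UnitNotRoot x := by
  have hsq : (Real.goldenRatio : ℂ) ^ 2 = Real.goldenRatio + 1 := by
    have := Real.goldenRatio_sq
    exact_mod_cast this
  have hne : (Real.goldenRatio : ℂ) ≠ 0 := by
    exact_mod_cast Real.goldenRatio_ne_zero
  have hint : IsIntegral ℤ (Real.goldenRatio : ℂ) := by
    refine ⟨X ^ 2 - X - 1, ?_, ?_⟩
    · monicity!
    · simp only [eval₂_sub, eval₂_X_pow, eval₂_X, eval₂_one]
      rw [hsq]; ring
  have hinv : (Real.goldenRatio : ℂ)⁻¹ = Real.goldenRatio - 1 := by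
    field_simp
    rw [mul_sub, ← sq, hsq]; ring
  refine ⟨Real.goldenRatio, hne, hint, ?_, ?_⟩
  · rw [hinv]
    exact hint.sub isIntegral_one
  · intro m hm h
    have h1 := congrArg norm h
    rw [norm_pow, norm_one, Complex.norm_real, Real.norm_of_nonneg Real.goldenRatio_pos.le] at h1
    have h2 : 1 < Real.goldenRatio ^ m := one_lt_pow₀ Real.one_lt_goldenRatio (by omega)
    linarith

lemma eta_ge (x : ℂ) (hx0 : x ≠ 0) (hx : IsIntegral ℤ x) : Real.log (base (MM x)) ≤ H746UG.eta x := by
  refine ge_of_tendsto (H746UG.tendsto_eta x hx0) ?_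
  filter_upwards [eventually_gt_atTop 0] with n hn
  have h1 := digit_lower x hx n
  have h2 := Real.log_le_log (pow_pos (base_pos _) n) h1
  rw [Real.log_pow] at h2
  have hn' : (0 : ℝ) < n := by exact_mod_cast hn
  rw [le_div_iff₀ hn', mul_comm]
  exact h2

lemma eta_le (x : ℂ) (hx0 : x ≠ 0) (hx : IsIntegral ℤ x) : H746UG.eta x ≤ Real.log (MM x) := by
  set d := (minpoly ℤ x).natDegree with hd
  have hlim : Tendsto (fun n : ℕ => d * (Real.log (2 * n) / n) + Real.log (MM x)) atTop
      (𝓝 (d * 0 + Real.log (MM x))) := by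
    refine Tendsto.add (Tendsto.const_mul _ ?_) tendsto_const_nhds
    have h5 : Tendsto (fun x : ℝ => Real.log x / x) atTop (𝓝 0) := by
      have := Real.isLittleO_log_id_atTop.tendsto_div_nhds_zero
      simpa using this
    have h6 : Tendsto (fun n : ℕ => (2 * n : ℝ)) atTop atTop :=
      tendsto_natCast_atTop_atTop.const_mul_atTop (by norm_num)
    have h7 := (h5.comp h6).const_mul 2
    rw [mul_zero] at h7
    refine h7.congr' ?_
    filter_upwards [eventually_gt_atTop 0] with n hn
    have h8 : (n : ℝ) ≠ 0 := by exact_mod_cast hn.ne'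
    simp only [Function.comp_apply]
    field_simp
  rw [mul_zero, zero_add] at hlim
  refine le_of_tendsto_of_tendsto (H746UG.tendsto_eta x hx0) hlim ?_
  filter_upwards [eventually_gt_atTop 0] with n hn
  have hn' : (0 : ℝ) < n := by exact_mod_cast hn
  have h1 := digit_upper x hx n hn
  have hM : 0 < MM x := zero_lt_one.trans_le (MM_ge x hx)
  have h0 : (0 : ℝ) < Nat.card ↥(digitSums x n) := by
    have h3 := H746UG.DS_pos x n
    rw [H746UG.DS_eq_digitSums] at h3
    exact_mod_cast h3
  have h2 := Real.log_le_log h0 h1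
  rw [Real.log_mul (by positivity) (by positivity), Real.log_pow, Real.log_pow] at h2
  have e : (d : ℝ) * (Real.log (2 * n) / n) + Real.log (MM x) =
      (d * Real.log (2 * n) + n * Real.log (MM x)) / n := by
    field_simp
  rw [e]
  exact div_le_div_of_nonneg_right h2 hn'.le

/-- `γ_{k+1}` -/
abbrev gam (G : Type*) [Group G] (k : ℕ) : Subgroup G := (⊤ : Subgroup G).lowerCentralSeries k

/-- the class for `k` and `d` -/
def InClass (k d : ℕ) (G : Type*) [Group G] : Prop :=
  ∃ H : Subgroup G, H.index ≠ 0 ∧ H.index ≤ d ∧ (Group.IsNilpotent (gam H k) ∨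
    ¬ Group.IsVirtuallyNilpotent (H ⧸ ⁅gam H k, gam H k⁆))

lemma vn_of_sub {G : Type*} [Group G] (H : Subgroup G) (hH : H.index ≠ 0)
    (h : Group.IsVirtuallyNilpotent H) : Group.IsVirtuallyNilpotent G := by
  obtain ⟨N, hN, hf⟩ := h
  refine ⟨N.map H.subtype, ?_, ?_⟩
  · have e : N ≃* N.map H.subtype := N.equivMapOfInjective H.subtype H.subtype_injective
    have hN' := hN
    exact Group.nilpotent_of_mulEquiv e
  · constructor
    rw [Subgroup.index_map_subtype]
    exact mul_ne_zero hf.index_ne_zero hH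

lemma dig_log {G : Type u} [Group G] (T : Set G) {L : ℕ} (hL : 0 < L)
    (h : H785R3.GrowthA.Dig T L) :
    ∃ x : ℂ, UnitNotRoot x ∧ Real.log (base (MM x)) / L ≤ H746UG.rho T := by
  obtain ⟨x, hx0, hroot, hn⟩ := h
  have hL' : (0 : ℝ) < L := by exact_mod_cast hL
  have key : H746UG.eta x / L ≤ H746UG.rho T := by
    have h1 : Tendsto (fun n : ℕ => Real.log (Nat.card ↥(H746UG.digitSums x n)) / n / L) atTop
        (𝓝 (H746UG.eta x / L)) := (H746UG.tendsto_eta x hx0).div_const _
    refine le_of_tendsto_of_tendsto' h1 (H746UG.tendsto_rho T) ?_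
    intro n
    have h2 : (0 : ℝ) < Nat.card ↥(H746UG.digitSums x n) := by
      have h3 := H746UG.DS_pos x n
      rw [H746UG.DS_eq_digitSums] at h3
      exact_mod_cast h3
    have h3 : Real.log (Nat.card ↥(H746UG.digitSums x n)) ≤ L * Real.log (Nat.card ↥(T ^ n)) := by
      have h4 : Real.log (Nat.card ↥(H746UG.digitSums x n)) ≤
          Real.log ((Nat.card ↥(T ^ n) : ℝ) ^ L) := by
        apply Real.log_le_log h2
        have := hn n
        rw [H746UG.DS_eq_digitSums] at this
        exact_mod_cast this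
      rw [Real.log_pow] at h4
      exact h4
    rcases Nat.eq_zero_or_pos n with h0 | h0
    · subst h0; simp
    · have h5 : (0 : ℝ) < n := by exact_mod_cast h0
      rw [div_div, div_le_div_iff₀ (by positivity) h5]
      nlinarith
  by_cases hi : IsIntegral ℤ x ∧ IsIntegral ℤ x⁻¹
  · refine ⟨x, ⟨hx0, hi.1, hi.2, hroot⟩, ?_⟩
    exact (div_le_div_of_nonneg_right (eta_ge x hx0 hi.1) hL'.le).trans key
  · obtain ⟨y, hy⟩ := exists_unit
    refine ⟨y, hy, ?_⟩
    have h4 : H746UG.eta x = Real.log 2 := H746UG.eta_eq_log_two x hx0 hi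
    rw [h4] at key
    refine (div_le_div_of_nonneg_right ?_ hL'.le).trans key
    exact Real.log_le_log (base_pos _) (base_lt_two _).le

/-- main inequality -/
theorem main_ineq (k d : ℕ) (hk : 1 ≤ k) (G : Type u) [Group G] (S : Set G)
    (hfin : S.Finite) (hgen : Subgroup.closure S = ⊤) (hG : InClass k d G) :
    Group.IsVirtuallyNilpotent G ∨ ∃ x : ℂ, UnitNotRoot x ∧
      Real.log (base (MM x)) / (2 ^ (k + 1) * (2 * d - 1)) ≤ H746UG.rho S := by
  obtain ⟨H, hH0, hHd, hnil⟩ := hG
  have hd : 1 ≤ d := by omega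
  rcases S.eq_empty_or_nonempty with rfl | hne
  · left
    rw [Subgroup.closure_empty] at hgen
    have hsub : Subsingleton G := Subgroup.subsingleton_iff.1 (subsingleton_of_bot_eq_top hgen)
    refine ⟨⊥, ?_, ?_⟩
    · infer_instance
    · constructor
      rw [hgen, Subgroup.index_top]
      exact one_ne_zero
  rcases H785R3.GrowthA.main_dig (TT_finite S hfin H d) (TT_gen S hgen H hH0 hHd) hk with h | ⟨h', h⟩
  · right
    obtain ⟨x, hx, h1⟩ := dig_log (TT S H d) (L := 2 ^ (k + 1)) (by positivity) h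
    refine ⟨x, hx, ?_⟩
    have h2 := rho_TT S hfin hne H hd
    have he : ((2 * d - 1 : ℕ) : ℝ) = 2 * d - 1 := by
      rw [Nat.cast_sub (by omega)]; push_cast; ring
    rw [he] at h2
    have hpos : (0 : ℝ) < 2 * d - 1 := by
      have : (1 : ℝ) ≤ d := by exact_mod_cast hd
      linarith
    have h3 := h1.trans h2
    push_cast at h3
    rw [← div_div, div_le_iff₀ hpos, mul_comm (H746UG.rho S)]
    exact h3
  · left
    rcases hnil with hnil | hnil
    · exact vn_of_sub H hH0 (h hnil)
    · exact absurd h' hnil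

/-- the growth gap in the class -/
def Gap (k d : ℕ) (c : ℝ) : Prop :=
  ∀ (G : Type) [Group G] (S : Set G), S.Finite → Subgroup.closure S = ⊤ →
    InClass k d G → Group.IsVirtuallyNilpotent G ∨ c ≤ H746UG.rho S

/-- the growth gap for metabelian groups -/
def MetGap (c : ℝ) : Prop :=
  ∀ (G : Type) [Group G] (S : Set G), S.Finite → Subgroup.closure S = ⊤ →
    derivedSeries G 2 = ⊥ → Group.IsVirtuallyNilpotent G ∨ c ≤ H746UG.rho S

/-- Lehmer's conjecture with constant `1 + ε` -/
def LehmerWith (ε : ℝ) : Prop :=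
  ∀ p : ℤ[X], p ≠ 0 → (p.map (Int.castRingHom ℂ)).mahlerMeasure = 1 ∨
    1 + ε ≤ (p.map (Int.castRingHom ℂ)).mahlerMeasure

theorem gap_of_lehmer {ε : ℝ} (hε : 0 < ε) (hL : LehmerWith ε) (k d : ℕ) (hk : 1 ≤ k) :
    Gap k d (Real.log (base (1 + ε)) / (2 ^ (k + 1) * (2 * d - 1))) := by
  intro G _ S hfin hgen hG
  have hd : 1 ≤ d := by
    obtain ⟨H, h1, h2, _⟩ := hG
    omega
  rcases main_ineq k d hk G S hfin hgen hG with h | ⟨x, hx, h⟩
  · exact Or.inl h
  · right
    refine le_trans ?_ h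
    have hpos : (0 : ℝ) < 2 ^ (k + 1) * (2 * d - 1) := by
      have : (1 : ℝ) ≤ d := by exact_mod_cast hd
      have h2 : (0 : ℝ) < 2 * d - 1 := by linarith
      positivity
    apply div_le_div_of_nonneg_right _ hpos.le
    apply Real.log_le_log (base_pos _)
    apply base_mono (by linarith)
    rcases hL (minpoly ℤ x) (minpoly.monic hx.2.1).ne_zero with h3 | h3
    · exfalso
      have h4 := MM_gt x hx.2.1 hx.1 hx.2.2.2
      unfold MM at h4
      linarith
    · exact h3

theorem met_of_gap {c : ℝ} (h : Gap 1 1 c) : MetGap c := by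
  intro G _ S hfin hgen hmet
  apply h G S hfin hgen
  refine ⟨⊤, ?_, ?_, Or.inl ?_⟩
  · rw [Subgroup.index_top]; exact one_ne_zero
  · rw [Subgroup.index_top]
  · have hab : ∀ a b : gam (⊤ : Subgroup G) 1, a * b = b * a := by
      intro a b
      have ha : ((a : (⊤ : Subgroup G)) : G) ∈ derivedSeries G 1 := by
        have h1 : (a : (⊤ : Subgroup G)) ∈ commutator (⊤ : Subgroup G) := a.2
        rw [derivedSeries_one]
        have h2 : (commutator (⊤ : Subgroup G)).map (⊤ : Subgroup G).subtype ≤ commutator G := by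
          rw [commutator_def, commutator_def, Subgroup.map_commutator]
          exact Subgroup.commutator_mono le_top le_top
        exact h2 ⟨_, h1, rfl⟩
      have hb : ((b : (⊤ : Subgroup G)) : G) ∈ derivedSeries G 1 := by
        have h1 : (b : (⊤ : Subgroup G)) ∈ commutator (⊤ : Subgroup G) := b.2
        rw [derivedSeries_one]
        have h2 : (commutator (⊤ : Subgroup G)).map (⊤ : Subgroup G).subtype ≤ commutator G := by
          rw [commutator_def, commutator_def, Subgroup.map_commutator]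
          exact Subgroup.commutator_mono le_top le_top
        exact h2 ⟨_, h1, rfl⟩
      have h4 : ⁅((a : (⊤ : Subgroup G)) : G), ((b : (⊤ : Subgroup G)) : G)⁆ ∈ derivedSeries G 2 := by
        rw [derivedSeries_succ]
        exact Subgroup.commutator_mem_commutator ha hb
      rw [hmet, Subgroup.mem_bot, commutatorElement_eq_one_iff_mul_comm] at h4
      exact Subtype.ext (Subtype.ext h4)
    let _ : CommGroup (gam (⊤ : Subgroup G) 1) :=
      { (inferInstance : Group (gam (⊤ : Subgroup G) 1)) with mul_comm := hab }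
    exact CommGroup.isNilpotent

theorem lehmer_of_met {c : ℝ} (h : MetGap c) :
    LehmerWith (min 1 (Real.exp c - 1)) := by
  intro p hp
  set F := p.map (Int.castRingHom ℂ) with hF
  have hinj : Function.Injective (Int.castRingHom ℂ) := (Int.castRingHom ℂ).injective_int
  have hF0 : F ≠ 0 := (Polynomial.map_ne_zero_iff hinj).2 hp
  have h1 : 1 ≤ F.mahlerMeasure := one_le_mahlerMeasure_of_ne_zero hp
  rcases h1.lt_or_eq with hgt | heq
  swap
  · exact Or.inl heq.symm
  right
  have hlc : F.leadingCoeff = (p.leadingCoeff : ℂ) := by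
    rw [hF, leadingCoeff_map_of_injective hinj]; rfl
  have hlc0 : p.leadingCoeff ≠ 0 := leadingCoeff_ne_zero.2 hp
  by_cases h2 : 2 ≤ |p.leadingCoeff|
  · have h3 := leadingCoeff_le_mahlerMeasure F
    rw [hlc, Complex.norm_intCast] at h3
    have h4 : (2 : ℝ) ≤ |(p.leadingCoeff : ℝ)| := by exact_mod_cast h2
    have h5 : min 1 (Real.exp c - 1) ≤ 1 := min_le_left _ _
    linarith
  have habs : |p.leadingCoeff| = 1 := by
    have := abs_pos.2 hlc0
    omega
  have hmm := mahlerMeasure_eq_leadingCoeff_mul_prod_roots F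
  rw [hlc, Complex.norm_intCast] at hmm
  have h4 : |(p.leadingCoeff : ℝ)| = 1 := by exact_mod_cast habs
  rw [h4, one_mul] at hmm
  -- a root outside the unit disc
  have hex : ∃ a ∈ F.roots, 1 < ‖a‖ := by
    by_contra hcon
    push Not at hcon
    have : (F.roots.map fun a => max 1 ‖a‖).prod = 1 := by
      apply Multiset.prod_eq_one
      intro b hb
      obtain ⟨a, ha, rfl⟩ := Multiset.mem_map.1 hb
      exact max_eq_left (hcon a ha)
    rw [hmm, this] at hgt
    exact lt_irrefl _ hgt
  obtain ⟨a, ha, ha1⟩ := hex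
  rw [mem_roots hF0, IsRoot.def, hF, eval_map] at ha
  have ha0 : aeval a p = 0 := ha
  have haint : IsIntegral ℤ a := by
    rcases abs_eq (zero_le_one (α := ℤ)) |>.1 habs with h5 | h5
    · exact ⟨p, h5, ha⟩
    · refine ⟨-p, ?_, ?_⟩
      · rw [Monic, leadingCoeff_neg, h5]; rfl
      · rw [eval₂_neg]
        show -(eval₂ (Int.castRingHom ℂ) a p) = 0
        rw [ha, neg_zero]
  have hane : a ≠ 0 := by
    rintro rfl
    rw [norm_zero] at ha1
    linarith
  have hle : MM a ≤ F.mahlerMeasure := by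
    obtain ⟨q, hq⟩ := minpoly.isIntegrallyClosed_dvd haint ha0
    have hq0 : q ≠ 0 := by
      rintro rfl
      apply hp
      rw [hq, mul_zero]
    have h6 : F.mahlerMeasure = MM a * (q.map (Int.castRingHom ℂ)).mahlerMeasure := by
      unfold MM
      rw [← mahlerMeasure_mul, ← Polynomial.map_mul, ← hq]
    have h7 : 1 ≤ (q.map (Int.castRingHom ℂ)).mahlerMeasure := one_le_mahlerMeasure_of_ne_zero hq0
    rw [h6]
    exact le_mul_of_one_le_right (zero_le_one.trans (MM_ge a haint)) h7
  have hMpos : 0 < MM a := zero_lt_one.trans_le (MM_ge a haint)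
  have heta : min c (Real.log 2) ≤ H746UG.eta a := by
    by_cases hi : IsIntegral ℤ a ∧ IsIntegral ℤ a⁻¹
    · have hroot : ∀ m > 0, a ^ m ≠ 1 := by
        intro m hm h8
        have h9 := congrArg norm h8
        rw [norm_pow, norm_one] at h9
        have : 1 < ‖a‖ ^ m := one_lt_pow₀ ha1 (by omega)
        linarith
      rcases h (H746UG.AG a hane) (H746UG.AS a hane) (H746UG.AS_finite a hane)
        (H746UG.AS_gen a hane) (H746UG.aff_metabelian a hane) with h8 | h8
      · exact absurd h8 (H746UG.aff_not_vn a hane hroot)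
      · rw [H746UG.rho_AS] at h8
        exact (min_le_left _ _).trans h8
    · rw [H746UG.eta_eq_log_two a hane hi]
      exact min_le_right _ _
  have h5 := heta.trans (eta_le a hane haint)
  have h6 : Real.exp (min c (Real.log 2)) ≤ MM a := by
    calc Real.exp (min c (Real.log 2)) ≤ Real.exp (Real.log (MM a)) := Real.exp_le_exp.2 h5
      _ = MM a := Real.exp_log hMpos
  have h7 : 1 + min 1 (Real.exp c - 1) ≤ Real.exp (min c (Real.log 2)) := by
    rcases le_total c (Real.log 2) with h8 | h8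
    · rw [min_eq_left h8]
      have := min_le_right 1 (Real.exp c - 1)
      linarith
    · rw [min_eq_right h8, Real.exp_log (by norm_num)]
      have := min_le_left 1 (Real.exp c - 1)
      linarith
  exact h7.trans (h6.trans hle)

theorem equivalences :
    ((∃ ε > 0, LehmerWith ε) ↔ ∃ c > 0, MetGap c) ∧
    ((∃ ε > 0, LehmerWith ε) ↔ ∀ k d : ℕ, 1 ≤ k → 1 ≤ d → ∃ c > 0, Gap k d c) := by
  have h1 : (∃ ε > 0, LehmerWith ε) → ∀ k d : ℕ, 1 ≤ k → 1 ≤ d → ∃ c > 0, Gap k d c := by
    rintro ⟨ε, hε, hL⟩ k d hk hd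
    refine ⟨_, ?_, gap_of_lehmer hε hL k d hk⟩
    have h2 : 0 < Real.log (base (1 + ε)) := Real.log_pos (one_lt_base (by linarith))
    have h3 : (1 : ℝ) ≤ d := by exact_mod_cast hd
    have h4 : (0 : ℝ) < 2 * d - 1 := by linarith
    positivity
  have h2 : (∀ k d : ℕ, 1 ≤ k → 1 ≤ d → ∃ c > 0, Gap k d c) → ∃ c > 0, MetGap c := by
    intro h
    obtain ⟨c, hc, hg⟩ := h 1 1 le_rfl le_rfl
    exact ⟨c, hc, met_of_gap hg⟩
  have h3 : (∃ c > 0, MetGap c) → ∃ ε > 0, LehmerWith ε := by
    rintro ⟨c, hc, hg⟩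
    refine ⟨_, ?_, lehmer_of_met hg⟩
    have : 1 < Real.exp c := Real.one_lt_exp_iff.2 hc
    exact lt_min one_pos (by linarith)
  exact ⟨⟨fun h => h2 (h1 h), h3⟩, ⟨h1, fun h => h3 (h2 h)⟩⟩

end Pool.Agent.W963.GE
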