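import Pool.Agent.W963.GE.Pick

/-!
# The quadratic form attached to the Pick matrix
-/

set_option autoImplicit false
set_option linter.unusedSectionVars false

namespace Pool.Agent.W963.GE

open Matrix Polynomial
open scoped ComplexConjugate

variable {ι : Type*} [Fintype ι] [DecidableEq ι]

/-- `β z = v* P⁻¹ z` for the vector `v = (1, …, 1)` -/
noncomputable def be (x : ι → ℂ) (z : ι → ℂ) : ℂ := ∑ i, ((pick x)⁻¹ *ᵥ z) i

/-- `N z = z* P⁻¹ z` -/
noncomputable def NN (x : ι → ℂ) (z : ι → ℂ) : ℝ := (star z ⬝ᵥ ((pick x)⁻¹ *ᵥ z)).re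

/-- `∏ |x_i|²` -/
noncomputable def M2 (x : ι → ℂ) : ℝ := ∏ i, ‖x i‖ ^ 2

lemma inv_herm (x : ι → ℂ) : ((pick x)⁻¹)ᴴ = (pick x)⁻¹ := by
  rw [conjTranspose_nonsing_inv, pick_herm]

lemma be_eq (x : ι → ℂ) (z : ι → ℂ) : be x z = star (fun _ : ι => (1 : ℂ)) ⬝ᵥ ((pick x)⁻¹ *ᵥ z) := by
  simp [be, dotProduct]

lemma form_conj (x : ι → ℂ) (z w : ι → ℂ) :
    star z ⬝ᵥ ((pick x)⁻¹ *ᵥ w) = conj (star w ⬝ᵥ ((pick x)⁻¹ *ᵥ z)) := by
  have h1 : conj (star w ⬝ᵥ ((pick x)⁻¹ *ᵥ z)) = star (star w ⬝ᵥ ((pick x)⁻¹ *ᵥ z)) := rfl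
  rw [h1, Matrix.star_dotProduct]
  congr 1
  rw [star_mulVec, inv_herm, ← dotProduct_mulVec]

lemma NN_add (x : ι → ℂ) (z : ι → ℂ) (t : ℝ) :
    NN x (z + fun _ => (t : ℂ)) = NN x z + 2 * t * (be x z).re + t ^ 2 * NN x (fun _ => 1) := by
  have e : (z + fun _ => (t : ℂ)) = z + (t : ℂ) • (fun _ : ι => (1 : ℂ)) := by
    funext i; simp
  unfold NN
  rw [e, star_add, star_smul, mulVec_add, mulVec_smul, add_dotProduct, dotProduct_add,
    dotProduct_add, smul_dotProduct, smul_dotProduct, dotProduct_smul, dotProduct_smul,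
    form_conj x z (fun _ => 1), ← be_eq]
  simp only [Complex.add_re, smul_eq_mul, RCLike.star_def, Complex.conj_ofReal, Complex.mul_re,
    Complex.ofReal_re, Complex.ofReal_im, zero_mul, sub_zero, Complex.conj_re, Complex.mul_im]
  ring

lemma pick_rel (x : ι → ℂ) (hx : ∀ i, 1 < ‖x i‖) :
    diagonal x * pick x * diagonal (fun i => conj (x i)) =
      pick x + replicateCol Unit (fun _ : ι => (1 : ℂ)) * replicateRow Unit (fun _ : ι => (1 : ℂ)) := by
  ext i j
  rw [mul_diagonal, diagonal_mul, Matrix.add_apply, mul_apply]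
  have h := ne_of x hx i j
  simp only [pick, of_apply, replicateCol_apply, replicateRow_apply, Finset.univ_unique,
    Finset.sum_const, Finset.card_singleton, one_smul, mul_one]
  field_simp
  ring

lemma be_one (x : ι → ℂ) (hinj : Function.Injective x) (hx : ∀ i, 1 < ‖x i‖) :
    be x (fun _ => 1) = (M2 x : ℂ) - 1 := by
  have hdet := pick_det_ne x hinj hx
  have h1 := congrArg Matrix.det (pick_rel x hx)
  rw [det_mul, det_mul, det_diagonal, det_diagonal,
    det_add_replicateCol_mul_replicateRow (isUnit_iff_ne_zero.2 hdet)] at h1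
  have h2 : (∏ i, x i) * (∏ i, conj (x i)) = (M2 x : ℂ) := by
    rw [← Finset.prod_mul_distrib, M2]
    push_cast
    refine Finset.prod_congr rfl fun i _ => ?_
    rw [Complex.mul_conj, Complex.normSq_eq_norm_sq]
    push_cast
    rfl
  have h3 : (1 + replicateRow Unit (fun _ : ι => (1 : ℂ)) * (pick x)⁻¹ *
      replicateCol Unit (fun _ : ι => (1 : ℂ))).det = 1 + be x (fun _ => 1) := by
    rw [Matrix.det_unique (n := Unit), Matrix.add_apply, one_apply_eq, Matrix.mul_assoc, mul_apply]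
    congr 1
    simp [be, mulVec, dotProduct, mul_apply]
  rw [h3] at h1
  have h4 : (M2 x : ℂ) * (pick x).det = (pick x).det * (1 + be x fun _ => 1) := by
    rw [← h1, ← h2]; ring
  have h5 : (M2 x : ℂ) = 1 + be x fun _ => 1 := by
    apply mul_left_cancel₀ hdet
    rw [← h4]; ring
  rw [h5]; ring

lemma NN_one (x : ι → ℂ) (hinj : Function.Injective x) (hx : ∀ i, 1 < ‖x i‖) :
    NN x (fun _ => 1) = M2 x - 1 := by
  unfold NN
  rw [← be_eq, be_one x hinj hx]
  simp

lemma NN_step (x : ι → ℂ) (hinj : Function.Injective x) (hx : ∀ i, 1 < ‖x i‖) (y : ι → ℂ) :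
    NN x (fun i => x i * y i) = NN x y + ‖be x (fun i => x i * y i)‖ ^ 2 / M2 x := by
  have hdet := pick_det_ne x hinj hx
  have hu : IsUnit (pick x).det := isUnit_iff_ne_zero.2 hdet
  have hM : 0 < M2 x := Finset.prod_pos fun i _ => by
    have := hx i
    positivity
  set v : ι → ℂ := fun _ => 1 with hv
  set a := (pick x)⁻¹ *ᵥ y with ha
  set b : ι → ℂ := fun i => a i / conj (x i) with hb
  set s : ℂ := ∑ i, b i with hs
  have hxc : ∀ i, conj (x i) ≠ 0 := fun i => by
    have := x_ne x hx i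
    simpa using this
  have hy : y = pick x *ᵥ a := by
    rw [ha, mulVec_mulVec, mul_nonsing_inv _ hu, one_mulVec]
  have hab : a = diagonal (fun i => conj (x i)) *ᵥ b := by
    funext i
    rw [mulVec_diagonal, hb]
    field_simp [hxc i]
  have hz : (fun i => x i * y i) = pick x *ᵥ b + s • v := by
    have h1 : (fun i => x i * y i) = diagonal x *ᵥ y := by
      funext i; rw [mulVec_diagonal]
    rw [h1, hy, hab, mulVec_mulVec, mulVec_mulVec, pick_rel x hx, add_mulVec]
    congr 1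
    funext i
    simp [mulVec, dotProduct, mul_apply, hs, v]
  set z : ι → ℂ := fun i => x i * y i with hzdef
  have hPz : (pick x)⁻¹ *ᵥ z = b + s • ((pick x)⁻¹ *ᵥ v) := by
    rw [hz, mulVec_add, mulVec_mulVec, nonsing_inv_mul _ hu, one_mulVec, mulVec_smul]
  have hbv := be_one x hinj hx
  have hbe : be x z = s * (M2 x : ℂ) := by
    unfold be
    rw [hPz]
    simp only [Pi.add_apply, Pi.smul_apply, smul_eq_mul, Finset.sum_add_distrib, ← Finset.mul_sum]
    have : ∑ i, ((pick x)⁻¹ *ᵥ v) i = (M2 x : ℂ) - 1 := hbv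
    rw [this, ← hs]; ring
  -- the three forms
  have hsv : star v = v := by funext i; simp [hv]
  have e1 : star z ⬝ᵥ ((pick x)⁻¹ *ᵥ z) =
      star b ⬝ᵥ (pick x *ᵥ b) + s * conj s + conj s * s + conj s * s * ((M2 x : ℂ) - 1) := by
    rw [hPz]
    nth_rewrite 1 [hz]
    rw [star_add, star_mulVec, pick_herm, star_smul, add_dotProduct, dotProduct_add, dotProduct_add,
      ← dotProduct_mulVec, smul_dotProduct, smul_dotProduct, dotProduct_smul, dotProduct_smul, hsv]
    have f1 : (star b ᵥ* pick x) ⬝ᵥ ((pick x)⁻¹ *ᵥ v) = conj s := by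
      rw [← dotProduct_mulVec, mulVec_mulVec, mul_nonsing_inv _ hu, one_mulVec]
      simp [dotProduct, hs, v, map_sum]
    have f2 : v ⬝ᵥ b = s := by simp [dotProduct, hs, v]
    have f3 : v ⬝ᵥ ((pick x)⁻¹ *ᵥ v) = (M2 x : ℂ) - 1 := by
      rw [← hbv, be_eq, hsv]
    rw [f1, f2, f3]
    simp only [smul_eq_mul, RCLike.star_def]
    ring
  have e2 : star y ⬝ᵥ ((pick x)⁻¹ *ᵥ y) = star b ⬝ᵥ (pick x *ᵥ b) + conj s * s := by
    rw [← ha]
    have g1 : star y ⬝ᵥ a = star a ⬝ᵥ (pick x *ᵥ a) := by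
      nth_rewrite 1 [hy]
      rw [star_mulVec, pick_herm, ← dotProduct_mulVec]
    rw [g1]
    nth_rewrite 1 [hab]
    rw [star_mulVec, ← dotProduct_mulVec]
    have g2 : (diagonal (fun i => conj (x i)))ᴴ = diagonal x := by
      rw [diagonal_conjTranspose]
      congr 1
      funext i
      simp
    rw [g2, hab, mulVec_mulVec, mulVec_mulVec, pick_rel x hx, add_mulVec,
      dotProduct_add]
    congr 1
    have g3 : (replicateCol Unit (fun _ : ι => (1 : ℂ)) * replicateRow Unit (fun _ : ι => (1 : ℂ))) *ᵥ b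
        = fun _ => s := by
      funext i
      simp [mulVec, dotProduct, mul_apply, hs]
    rw [g3]
    simp [dotProduct, hs, map_sum, Finset.sum_mul]
  unfold NN
  rw [e1, e2, hbe]
  have hss : conj s * s = ((‖s‖ ^ 2 : ℝ) : ℂ) := by
    rw [mul_comm, Complex.mul_conj, Complex.normSq_eq_norm_sq]
  have hss' : s * conj s = ((‖s‖ ^ 2 : ℝ) : ℂ) := by
    rw [Complex.mul_conj, Complex.normSq_eq_norm_sq]
  rw [hss, hss', norm_mul, Complex.norm_real, Real.norm_of_nonneg hM.le]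
  have e3 : (((‖s‖ ^ 2 : ℝ) : ℂ) * ((M2 x : ℂ) - 1)) = ((‖s‖ ^ 2 * (M2 x - 1) : ℝ) : ℂ) := by
    push_cast; ring
  rw [e3]
  simp only [Complex.add_re, Complex.ofReal_re]
  field_simp
  ring

end Pool.Agent.W963.GE
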