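import Mathlib

/-!
# The Pick matrix of finitely many complex numbers outside the unit disc
-/

set_option autoImplicit false

namespace Pool.Agent.W963.GE

open Matrix Polynomial
set_option linter.unusedSectionVars false
open scoped ComplexConjugate

variable {ι : Type*} [Fintype ι] [DecidableEq ι]

/-- the Pick matrix -/
noncomputable def pick (x : ι → ℂ) : Matrix ι ι ℂ := Matrix.of fun i j => 1 / (x i * conj (x j) - 1)

lemma ne_of (x : ι → ℂ) (hx : ∀ i, 1 < ‖x i‖) (i j : ι) : x i * conj (x j) - 1 ≠ 0 := by
  intro h
  have h1 : x i * conj (x j) = 1 := sub_eq_zero.1 h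
  have h2 : ‖x i‖ * ‖x j‖ = 1 := by
    have := congrArg norm h1
    simpa using this
  have h3 := hx i
  have h4 := hx j
  nlinarith

lemma x_ne (x : ι → ℂ) (hx : ∀ i, 1 < ‖x i‖) (i : ι) : x i ≠ 0 := by
  intro h
  have := hx i
  rw [h, norm_zero] at this
  linarith

lemma pick_herm (x : ι → ℂ) : (pick x)ᴴ = pick x := by
  ext i j
  simp only [pick, conjTranspose_apply, of_apply]
  simp [mul_comm]

lemma pick_det_ne (x : ι → ℂ) (hinj : Function.Injective x) (hx : ∀ i, 1 < ‖x i‖) :
    (pick x).det ≠ 0 := by
  intro hdet
  obtain ⟨w, hw0, hw⟩ := Matrix.exists_mulVec_eq_zero_iff.2 hdet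
  apply hw0
  set R : ℂ[X] := ∑ j, C (w j) * ∏ l ∈ Finset.univ.erase j, (C (conj (x l)) * X - 1) with hR
  have hRe : ∀ z, R.eval z = ∑ j, w j * ∏ l ∈ Finset.univ.erase j, (conj (x l) * z - 1) := by
    intro z
    simp [hR, eval_finsetSum, eval_prod]
  have h0 : ∀ i, R.eval (x i) = 0 := by
    intro i
    rw [hRe]
    have h1 : ∀ j, w j * ∏ l ∈ Finset.univ.erase j, (conj (x l) * x i - 1) =
        (∏ l, (conj (x l) * x i - 1)) * (1 / (x i * conj (x j) - 1) * w j) := by
      intro j
      have h2 := ne_of x hx i j
      rw [← Finset.mul_prod_erase Finset.univ _ (Finset.mem_univ j)]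
      have h3 : conj (x j) * x i - 1 = x i * conj (x j) - 1 := by ring
      rw [h3]
      generalize ∏ l ∈ Finset.univ.erase j, (conj (x l) * x i - 1) = Pr
      field_simp
    simp_rw [h1]
    rw [← Finset.mul_sum]
    have h2 : ∑ j, 1 / (x i * conj (x j) - 1) * w j = 0 := by
      have := congrFun hw i
      simpa [Matrix.mulVec, dotProduct, pick] using this
    rw [h2, mul_zero]
  have hdeg : ∀ j, (C (w j) * ∏ l ∈ Finset.univ.erase j, (C (conj (x l)) * X - 1)).degree <
      Fintype.card ι := by
    intro j
    have h1 : (C (w j) * ∏ l ∈ Finset.univ.erase j, (C (conj (x l)) * X - 1)).natDegree ≤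
        (Finset.univ.erase j : Finset ι).card := by
      refine natDegree_C_mul_le _ _ |>.trans ?_
      refine (natDegree_prod_le _ _).trans ?_
      refine (Finset.sum_le_card_nsmul _ _ 1 ?_).trans (by simp)
      intro l _
      refine (natDegree_sub_le _ _).trans ?_
      simp only [natDegree_one, zero_le, sup_of_le_left]
      exact (natDegree_C_mul_le _ _).trans natDegree_X_le
    have h2 : (Finset.univ.erase j : Finset ι).card < Fintype.card ι := by
      rw [Finset.card_erase_of_mem (Finset.mem_univ j), Finset.card_univ]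
      have : 0 < Fintype.card ι := Fintype.card_pos_iff.2 ⟨j⟩
      omega
    refine degree_le_natDegree.trans_lt ?_
    exact_mod_cast h1.trans_lt h2
  have hRdeg : R.degree < Fintype.card ι := by
    rcases isEmpty_or_nonempty ι with h | h
    · exfalso
      apply hw0
      funext i
      exact (h.false i).elim
    · rw [hR]
      refine (degree_sum_le _ _).trans_lt ?_
      rw [Finset.sup_lt_iff]
      · intro j _
        exact hdeg j
      · exact WithBot.bot_lt_coe _
  have hR0 : R = 0 := by
    refine eq_zero_of_degree_lt_of_eval_finset_eq_zero (s := Finset.univ.image x) ?_ ?_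
    · rw [Finset.card_image_of_injective _ hinj, Finset.card_univ]
      exact hRdeg
    · intro z hz
      obtain ⟨i, _, rfl⟩ := Finset.mem_image.1 hz
      exact h0 i
  funext j
  have hj := hRe (1 / conj (x j))
  rw [hR0, eval_zero] at hj
  have hxj : conj (x j) ≠ 0 := by
    have := x_ne x hx j
    simpa using this
  rw [Finset.sum_eq_single j] at hj
  · rcases mul_eq_zero.1 hj.symm with h | h
    · exact h
    · exfalso
      rw [Finset.prod_eq_zero_iff] at h
      obtain ⟨l, hl, hl0⟩ := h
      have hlj : l ≠ j := Finset.ne_of_mem_erase hl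
      apply hlj
      apply hinj
      have h4 : conj (x l) = conj (x j) := by
        have h5 := sub_eq_zero.1 hl0
        rw [mul_one_div, div_eq_one_iff_eq hxj] at h5
        exact h5
      exact (starRingEnd ℂ).injective h4
  · intro b _ hb
    have : ∏ l ∈ Finset.univ.erase b, (conj (x l) * (1 / conj (x j)) - 1) = 0 := by
      apply Finset.prod_eq_zero (i := j)
      · exact Finset.mem_erase.2 ⟨hb.symm, Finset.mem_univ _⟩
      · field_simp
        simp
    rw [this, mul_zero]
  · intro h
    exact absurd (Finset.mem_univ j) h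

end Pool.Agent.W963.GE
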