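import Pool.Agent.W963.GE.Conj

/-!
# The number of digit sums of an algebraic integer: upper bound
-/

set_option autoImplicit false

namespace Pool.Agent.W963.GE

open Polynomial

lemma norm_prod_ge_one (x : ℂ) (hx : IsIntegral ℤ x) (g : ℤ[X]) (hg : aeval x g ≠ 0) :
    1 ≤ (((minpoly ℤ x).map (Int.castRingHom ℂ)).roots.map fun a => ‖aeval a g‖).prod := by
  set f := minpoly ℤ x with hf
  set F := f.map (Int.castRingHom ℂ) with hF
  have hmon : f.Monic := minpoly.monic hx
  have hFm : F.Monic := hmon.map _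
  have h1 : resultant F (g.map (Int.castRingHom ℂ)) F.natDegree g.natDegree =
      F.leadingCoeff ^ g.natDegree * (F.roots.map (g.map (Int.castRingHom ℂ)).eval).prod :=
    resultant_eq_prod_eval F (g.map (Int.castRingHom ℂ)) g.natDegree natDegree_map_le
      (IsAlgClosed.splits F)
  rw [hFm.leadingCoeff, one_pow, one_mul, hF, resultant_map_map] at h1
  set r : ℤ := resultant f g (f.map (Int.castRingHom ℂ)).natDegree g.natDegree with hr
  have hne : (F.roots.map (g.map (Int.castRingHom ℂ)).eval).prod ≠ 0 := by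
    rw [Ne, Multiset.prod_eq_zero_iff, Multiset.mem_map]
    rintro ⟨a, ha, ha0⟩
    rw [mem_roots hFm.ne_zero, IsRoot.def, hF, eval_map] at ha
    rw [eval_map] at ha0
    have h2 : aeval a g = 0 := ha0
    have h3 : aeval a f = 0 := ha
    have ha' : IsIntegral ℤ a := ⟨f, hmon, ha⟩
    have h4 : minpoly ℤ a ∣ f := minpoly.isIntegrallyClosed_dvd ha' h3
    have h5 : minpoly ℤ a = f := by
      have hirr : Irreducible f := minpoly.irreducible hx
      have h6 : Associated (minpoly ℤ a) f := by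
        obtain ⟨q, hq⟩ := h4
        rcases hirr.isUnit_or_isUnit hq with h7 | h7
        · exfalso
          exact (minpoly.irreducible ha').not_isUnit h7
        · rw [hq]
          exact (associated_mul_unit_left _ _ h7).symm
      exact eq_of_monic_of_associated (minpoly.monic ha') hmon h6
    have h8 : minpoly ℤ a ∣ g := minpoly.isIntegrallyClosed_dvd ha' h2
    rw [h5] at h8
    obtain ⟨q, hq⟩ := h8
    apply hg
    rw [hq, map_mul, minpoly.aeval, zero_mul]
  have h6 : (F.roots.map fun a => ‖aeval a g‖).prod =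
      ‖(F.roots.map (g.map (Int.castRingHom ℂ)).eval).prod‖ := by
    have h9 := map_multiset_prod (normHom : ℂ →*₀ ℝ) (F.roots.map (g.map (Int.castRingHom ℂ)).eval)
    have h10 : ‖(F.roots.map (g.map (Int.castRingHom ℂ)).eval).prod‖ =
        (normHom : ℂ →*₀ ℝ) (F.roots.map (g.map (Int.castRingHom ℂ)).eval).prod := rfl
    rw [h10, h9, Multiset.map_map]
    congr 1
    refine Multiset.map_congr rfl fun a _ => ?_
    simp only [Function.comp_apply, eval_map, aeval_def]
    rfl
  rw [h6]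
  have h7 : (F.roots.map (g.map (Int.castRingHom ℂ)).eval).prod = (r : ℂ) := by
    rw [← h1]; rfl
  rw [h7] at hne ⊢
  have hr0 : r ≠ 0 := by
    intro h
    apply hne
    rw [h]; simp
  rw [Complex.norm_intCast]
  exact_mod_cast Int.one_le_abs hr0

lemma MM_prod (x : ℂ) (hx : IsIntegral ℤ x) :
    (((minpoly ℤ x).map (Int.castRingHom ℂ)).roots.map fun a => max 1 ‖a‖).prod = MM x := by
  unfold MM
  rw [mahlerMeasure_eq_leadingCoeff_mul_prod_roots, ((minpoly.monic hx).map _).leadingCoeff,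
    norm_one, one_mul]

lemma card_roots' (x : ℂ) (hx : IsIntegral ℤ x) :
    Multiset.card ((minpoly ℤ x).map (Int.castRingHom ℂ)).roots = (minpoly ℤ x).natDegree := by
  rw [← (IsAlgClosed.splits ((minpoly ℤ x).map (Int.castRingHom ℂ))).natDegree_eq_card_roots,
    (minpoly.monic hx).natDegree_map]

/-- polynomial of a digit sequence -/
noncomputable def dp {n : ℕ} (c : Fin n → ℤ) : ℤ[X] := ∑ i : Fin n, C (c i) * X ^ (i : ℕ)

lemma aeval_dp {n : ℕ} (c : Fin n → ℤ) (a : ℂ) : aeval a (dp c) = ∑ i, (c i : ℂ) * a ^ (i : ℕ) := by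
  unfold dp
  rw [map_sum]
  refine Finset.sum_congr rfl fun i _ => ?_
  simp

lemma norm_dp_le {n : ℕ} (c : Fin n → ℤ) (hc : ∀ i, |c i| ≤ 1) (a : ℂ) :
    ‖aeval a (dp c)‖ ≤ n * (max 1 ‖a‖) ^ n := by
  rw [aeval_dp]
  refine (norm_sum_le _ _).trans ?_
  have h1 : ∀ i : Fin n, ‖(c i : ℂ) * a ^ (i : ℕ)‖ ≤ (max 1 ‖a‖) ^ n := by
    intro i
    rw [norm_mul, norm_pow, Complex.norm_intCast]
    have h2 : (|(c i : ℝ)|) ≤ 1 := by exact_mod_cast hc i
    have h3 : ‖a‖ ^ (i : ℕ) ≤ (max 1 ‖a‖) ^ n := by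
      calc ‖a‖ ^ (i : ℕ) ≤ (max 1 ‖a‖) ^ (i : ℕ) := by
            gcongr
            exact le_max_right _ _
        _ ≤ (max 1 ‖a‖) ^ n := pow_le_pow_right₀ (le_max_left _ _) i.2.le
    calc |(c i : ℝ)| * ‖a‖ ^ (i : ℕ) ≤ 1 * ‖a‖ ^ (i : ℕ) := by gcongr
      _ ≤ _ := by rw [one_mul]; exact h3
  refine (Finset.sum_le_sum fun i _ => h1 i).trans ?_
  simp

lemma multiset_prod_le {s : Multiset ℂ} (f g : ℂ → ℝ) (h : ∀ a ∈ s, 0 ≤ f a ∧ f a ≤ g a) :
    (s.map f).prod ≤ (s.map g).prod := by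
  induction s using Multiset.induction_on with
  | empty => simp
  | cons a s ih =>
    rw [Multiset.map_cons, Multiset.map_cons, Multiset.prod_cons, Multiset.prod_cons]
    have h1 := h a (Multiset.mem_cons_self a s)
    have h2 := ih fun b hb => h b (Multiset.mem_cons_of_mem hb)
    have h3 : 0 ≤ (s.map f).prod := by
      apply Multiset.prod_nonneg
      intro b hb
      obtain ⟨c, hc, rfl⟩ := Multiset.mem_map.1 hb
      exact (h c (Multiset.mem_cons_of_mem hc)).1
    exact mul_le_mul h1.2 h2 h3 (h1.1.trans h1.2)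

lemma key (x : ℂ) (hx : IsIntegral ℤ x) {n : ℕ} (c : Fin n → ℤ) (hc : ∀ i, |c i| ≤ 1) (m : ℕ)
    (hm : ((n : ℝ) ^ (minpoly ℤ x).natDegree * MM x ^ n) < (m : ℝ) ^ (minpoly ℤ x).natDegree)
    (hdiv : ∀ k, (m : ℤ) ∣ (dp c %ₘ minpoly ℤ x).coeff k) : aeval x (dp c) = 0 := by
  by_contra hne
  set f := minpoly ℤ x with hf
  have hmon : f.Monic := minpoly.monic hx
  have hdvd : C (m : ℤ) ∣ dp c %ₘ f := (C_dvd_iff_dvd_coeff _ _).2 hdiv
  obtain ⟨g, hg⟩ := hdvd
  have hD : ∀ a : ℂ, aeval a f = 0 → aeval a (dp c) = (m : ℂ) * aeval a g := by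
    intro a ha
    have h1 := modByMonic_add_div (dp c) f
    rw [← h1, map_add, map_mul, ha, zero_mul, add_zero, hg, map_mul]
    simp
  have hgx : aeval x g ≠ 0 := by
    intro h
    apply hne
    rw [hD x (minpoly.aeval ℤ x), h, mul_zero]
  have h1 := norm_prod_ge_one x hx g hgx
  set s := (f.map (Int.castRingHom ℂ)).roots with hs
  have hroot : ∀ a ∈ s, aeval a f = 0 := by
    intro a ha
    rw [hs, mem_roots (hmon.map _).ne_zero, IsRoot.def, eval_map] at ha
    exact ha
  have h2 : (s.map fun a => (m : ℝ) * ‖aeval a g‖).prod ≤ (s.map fun a => n * (max 1 ‖a‖) ^ n).prod := by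
    apply multiset_prod_le
    intro a ha
    refine ⟨by positivity, ?_⟩
    have h3 := norm_dp_le c hc a
    rw [hD a (hroot a ha), norm_mul, Complex.norm_natCast] at h3
    exact h3
  rw [Multiset.prod_map_mul, Multiset.prod_map_mul, Multiset.map_const', Multiset.map_const',
    Multiset.prod_replicate, Multiset.prod_replicate, Multiset.prod_map_pow, hs,
    card_roots' x hx, MM_prod x hx] at h2
  have h4 : (m : ℝ) ^ f.natDegree * 1 ≤ (m : ℝ) ^ f.natDegree *
      ((f.map (Int.castRingHom ℂ)).roots.map fun a => ‖aeval a g‖).prod :=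
    mul_le_mul_of_nonneg_left h1 (by positivity)
  linarith

theorem digit_upper (x : ℂ) (hx : IsIntegral ℤ x) (n : ℕ) (hn : 1 ≤ n) :
    (Nat.card ↥(digitSums x n) : ℝ) ≤
      (2 * n : ℝ) ^ (minpoly ℤ x).natDegree * MM x ^ n := by
  classical
  set f := minpoly ℤ x with hf
  set d := f.natDegree with hd
  have hmon : f.Monic := minpoly.monic hx
  have hd1 : 1 ≤ d := minpoly.natDegree_pos hx
  have hM1 : 1 ≤ MM x := MM_ge x hx
  have hn' : (1 : ℝ) ≤ n := by exact_mod_cast hn
  set T : ℝ := (n : ℝ) ^ d * MM x ^ n with hT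
  have hT1 : 1 ≤ T := by
    have h1 : 1 ≤ (n : ℝ) ^ d := one_le_pow₀ hn'
    have h2 : 1 ≤ MM x ^ n := one_le_pow₀ hM1
    calc (1 : ℝ) = 1 * 1 := by ring
      _ ≤ _ := mul_le_mul h1 h2 zero_le_one (by positivity)
  have hex : ∃ m : ℕ, T < (m : ℝ) ^ d := by
    obtain ⟨m, hm⟩ := exists_nat_gt T
    refine ⟨m, hm.trans_le ?_⟩
    have : (1 : ℝ) ≤ m := hT1.trans hm.le
    exact le_self_pow₀ this (by omega)
  set m := Nat.find hex with hmdef
  have hm : T < (m : ℝ) ^ d := Nat.find_spec hex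
  have hm2 : 2 ≤ m := by
    by_contra hcon
    have h1 : m ≤ 1 := by omega
    have h2 : (m : ℝ) ≤ 1 := by exact_mod_cast h1
    have h3 : (m : ℝ) ^ d ≤ 1 := pow_le_one₀ (Nat.cast_nonneg _) h2
    linarith
  have hpred : ((m - 1 : ℕ) : ℝ) ^ d ≤ T := by
    have := Nat.find_min hex (m := m - 1) (by omega)
    exact not_lt.1 this
  have hmle : (m : ℝ) ^ d ≤ 2 ^ d * T := by
    have h1 : (m : ℝ) ≤ 2 * ((m - 1 : ℕ) : ℝ) := by
      have : m ≤ 2 * (m - 1) := by omega
      exact_mod_cast this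
    calc (m : ℝ) ^ d ≤ (2 * ((m - 1 : ℕ) : ℝ)) ^ d := by gcongr
      _ = 2 ^ d * ((m - 1 : ℕ) : ℝ) ^ d := by rw [mul_pow]
      _ ≤ _ := by gcongr
  haveI : NeZero m := ⟨by omega⟩
  -- the residue map
  let cc : (Fin n → Bool) → Fin n → ℤ := fun ε i => if ε i then 1 else 0
  let Φ : (Fin n → Bool) → (Fin d → ZMod m) := fun ε k => ((dp (cc ε) %ₘ f).coeff k : ZMod m)
  have hval : ∀ ε, dval x ε = aeval x (dp (cc ε)) := by
    intro ε
    rw [aeval_dp]
    unfold dval
    refine Finset.sum_congr rfl fun i _ => ?_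
    simp only [cc]
    split_ifs <;> simp
  have hΦ : ∀ ε ε', Φ ε = Φ ε' → dval x ε = dval x ε' := by
    intro ε ε' h
    have h1 := key x hx (fun i => cc ε i - cc ε' i) (by
      intro i
      simp only [cc]
      split_ifs <;> simp) m hm (by
      intro k
      have h2 : dp (fun i => cc ε i - cc ε' i) = dp (cc ε) - dp (cc ε') := by
        unfold dp
        rw [← Finset.sum_sub_distrib]
        refine Finset.sum_congr rfl fun i _ => ?_
        rw [C_sub]; ring
      rw [h2, sub_modByMonic, coeff_sub]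
      by_cases hk : k < d
      · have h3 := congrFun h ⟨k, hk⟩
        simp only [Φ] at h3
        rw [← ZMod.intCast_zmod_eq_zero_iff_dvd]
        push_cast
        rw [h3, sub_self]
      · have hk' : f.natDegree ≤ k := not_lt.1 hk
        have h4 : ∀ p : ℤ[X], (p %ₘ f).coeff k = 0 := by
          intro p
          apply coeff_eq_zero_of_degree_lt
          refine (degree_modByMonic_lt p hmon).trans_le ?_
          rw [degree_eq_natDegree hmon.ne_zero]
          exact_mod_cast hk'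
        rw [h4, h4, sub_self]
        exact dvd_zero _)
    rw [hval, hval, ← sub_eq_zero, aeval_dp, aeval_dp, ← Finset.sum_sub_distrib]
    rw [aeval_dp] at h1
    rw [← h1]
    refine Finset.sum_congr rfl fun i _ => ?_
    push_cast; ring
  have hcard : (Finset.univ.image (dval x (n := n))).card ≤ (Finset.univ.image Φ).card := by
    have h1 : ∀ y ∈ Finset.univ.image Φ, ∃ ε, Φ ε = y := by
      intro y hy
      obtain ⟨ε, _, h⟩ := Finset.mem_image.1 hy
      exact ⟨ε, h⟩
    let ψ : (Fin d → ZMod m) → ℂ := fun y => if h : ∃ ε, Φ ε = y then dval x h.choose else 0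
    have h2 : Finset.univ.image (dval x (n := n)) ⊆ (Finset.univ.image Φ).image ψ := by
      intro z hz
      obtain ⟨ε, _, rfl⟩ := Finset.mem_image.1 hz
      refine Finset.mem_image.2 ⟨Φ ε, Finset.mem_image_of_mem _ (Finset.mem_univ _), ?_⟩
      have h3 : ∃ ε', Φ ε' = Φ ε := ⟨ε, rfl⟩
      simp only [ψ, h3, dif_pos]
      exact hΦ _ _ h3.choose_spec
    exact (Finset.card_le_card h2).trans Finset.card_image_le
  have hcard2 : (Finset.univ.image Φ).card ≤ m ^ d := by
    refine (Finset.card_le_univ _).trans ?_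
    simp [ZMod.card]
  rw [card_digitSums]
  have h5 : ((Finset.univ.image (dval x (n := n))).card : ℝ) ≤ (m : ℝ) ^ d := by
    exact_mod_cast hcard.trans hcard2
  refine h5.trans (hmle.trans (le_of_eq ?_))
  rw [hT, mul_pow]; ring

end Pool.Agent.W963.GE
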